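import Pool.Agent.Helper65.JL.Stmts
import Pool.Agent.Helper68.TK.FINE

/-!
# Row BND of the sheet JL
-/

set_option autoImplicit false

open Set Filter Topology Pool.Agent.Helper86.TK

namespace Pool.Agent.Helper1.JL

open Pool.Agent.Helper65.JL

theorem weak_lim {Y : Type} [NormedAddCommGroup Y] [NormedSpace ℝ Y] {A : Type}
    (V : Ultrafilter A) (L : Set Y) (hL : WCpt L) (l : A → Y) (hl : ∀ᶠ a in (V : Filter A), l a ∈ L) :
    ∃ l₀ ∈ L, ∀ φ : StrongDual ℝ Y, Tendsto (fun n => φ (l n)) V (𝓝 (φ l₀)) := by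
  have h1 := hL.ultrafilter_le_nhds (V.map (fun n => toWeakSpace ℝ Y (l n)))
    (by
      rw [Ultrafilter.coe_map]
      refine le_principal_iff.2 (mem_map.2 ?_)
      filter_upwards [hl] with n hn
      exact ⟨l n, hn, rfl⟩)
  obtain ⟨_, ⟨l₀, hl₀, rfl⟩, h2⟩ := h1
  refine ⟨l₀, hl₀, fun φ => ?_⟩
  have h3 : Tendsto (fun n => toWeakSpace ℝ Y (l n)) V (𝓝 (toWeakSpace ℝ Y l₀)) := h2
  have h4 : Continuous fun x : WeakSpace ℝ Y => (topDualPairing ℝ Y).flip x φ :=
    WeakBilin.eval_continuous (topDualPairing ℝ Y).flip φ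
  exact (h4.tendsto (toWeakSpace ℝ Y l₀)).comp h3

/-- two different branches have only finitely many common nodes -/
theorem nd_split (x y : ℕ → Bool) (h : x ≠ y) : ∃ m : ℕ, ∀ n, m ≤ n → nd x n ≠ nd y n := by
  obtain ⟨i, hi⟩ := Function.ne_iff.1 h
  refine ⟨i + 1, fun n hn hxy => hi ?_⟩
  unfold nd at hxy
  have h1 := List.map_inj_left.1 hxy i (List.mem_range.2 (by omega))
  exact h1

/-- finitely many branches are separated above some level -/
theorem nd_split_fin {Γ : Type} (r : Γ → ℕ → Bool) (hr : Function.Injective r) (F : Finset Γ) :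
    ∃ m : ℕ, ∀ x ∈ F, ∀ y ∈ F, x ≠ y → ∀ n, m ≤ n → nd (r x) n ≠ nd (r y) n := by
  classical
  have h : ∀ p : Γ × Γ, ∃ m : ℕ, p.1 ≠ p.2 → ∀ n, m ≤ n → nd (r p.1) n ≠ nd (r p.2) n := by
    intro p
    by_cases hp : p.1 = p.2
    · exact ⟨0, fun h => absurd hp h⟩
    · obtain ⟨m, hm⟩ := nd_split (r p.1) (r p.2) (fun h => hp (hr h))
      exact ⟨m, fun _ => hm⟩
  choose M hM using h
  refine ⟨(F ×ˢ F).sup M, fun x hx y hy hxy n hn => ?_⟩
  exact hM (x, y) hxy n (le_trans (Finset.le_sup (f := M) (Finset.mem_product.2 ⟨hx, hy⟩)) hn)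

theorem ind_cases (x : ℕ → Bool) (t : T) : ind x 0 t = 0 ∨ (ind x 0 t = 1 ∧ t = nd x t.length) := by
  unfold ind
  split_ifs with h
  · exact Or.inr ⟨rfl, h.2⟩
  · exact Or.inl rfl

theorem st_BND (hM : ST_MEM) : ST_BND := by
  classical
  intro Γ r η hP L hL
  have hcl : IsClosed {u : T → ℝ | ∀ t, u t = 0 ∨ u t = 1} := by
    have h1 : {u : T → ℝ | ∀ t, u t = 0 ∨ u t = 1} = ⋂ t, {u : T → ℝ | u t = 0 ∨ u t = 1} := by
      ext u
      simp only [mem_ofPred_eq, mem_iInter]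
    rw [h1]
    refine isClosed_iInter fun t => ?_
    have h2 : {u : T → ℝ | u t = 0 ∨ u t = 1} = (fun u : T → ℝ => u t) ⁻¹' {0, 1} := by
      ext u
      simp only [mem_ofPred_eq, mem_preimage, mem_insert_iff, mem_singleton_iff]
    rw [h2]
    exact ((Set.toFinite {(0 : ℝ), 1}).isClosed).preimage (continuous_apply t)
  have hsub : QL r η L ⊆ {u : T → ℝ | ∀ t, u t = 0 ∨ u t = 1} :=
    closure_minimal (fun u hu => hu.1) hcl
  have hcpt : IsCompact {u : T → ℝ | ∀ t, u t = 0 ∨ u t = 1} := by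
    have h1 : {u : T → ℝ | ∀ t, u t = 0 ∨ u t = 1} = Set.pi univ fun _ : T => ({0, 1} : Set ℝ) := by
      ext u
      simp only [mem_ofPred_eq, Set.mem_pi, mem_univ, true_implies, mem_insert_iff, mem_singleton_iff]
    rw [h1]
    exact isCompact_univ_pi fun _ => (Set.toFinite {(0 : ℝ), 1}).isCompact
  refine ⟨hcpt.of_isClosed_subset isClosed_closure hsub, ?_, fun c hc => hsub hc⟩
  intro u hu
  have hu01 := hsub hu
  obtain ⟨V, hV1, hV2⟩ := mem_closure_iff_ultrafilter.1 hu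
  -- choose the points of `L`
  have hch : ∀ v : T → ℝ, ∃ l : XX r η, ((∀ t, v t = 0 ∨ v t = 1) ∧ ∃ q : XX r η, q.1.1 = 0 ∧
      (fun t => q.1.2 t) = v ∧ ∃ l ∈ L, ‖q - l‖ ≤ 1 / 4) → l ∈ L ∧ ∃ q : XX r η, q.1.1 = 0 ∧
      (fun t => q.1.2 t) = v ∧ ‖q - l‖ ≤ 1 / 4 := by
    intro v
    by_cases hv : ((∀ t, v t = 0 ∨ v t = 1) ∧ ∃ q : XX r η, q.1.1 = 0 ∧
      (fun t => q.1.2 t) = v ∧ ∃ l ∈ L, ‖q - l‖ ≤ 1 / 4)
    · obtain ⟨_, q, h1, h2, l, h3, h4⟩ := hv
      exact ⟨l, fun _ => ⟨h3, q, h1, h2, h4⟩⟩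
    · exact ⟨0, fun h => absurd h hv⟩
  choose l hl using hch
  have hev : ∀ᶠ v in (V : Filter (T → ℝ)), l v ∈ L ∧ ∃ q : XX r η, q.1.1 = 0 ∧
      (fun t => q.1.2 t) = v ∧ ‖q - l v‖ ≤ 1 / 4 := by
    filter_upwards [hV1] with v hv
    exact hl v hv
  obtain ⟨l₀, hl₀, hw⟩ := weak_lim V L hL l (hev.mono fun v hv => hv.1)
  have ha : ∀ x : Γ, |l₀.1.1 x| ≤ 1 / 4 := by
    intro x
    have h1 : Tendsto (fun v => |(l v).1.1 x|) V (𝓝 |l₀.1.1 x|) := (hw (fine_cf r η x)).abs
    refine le_of_tendsto h1 ?_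
    filter_upwards [hev] with v hv
    obtain ⟨_, q, h2, _, h4⟩ := hv
    have h5 := (fine_fst r η (q - l v) x).trans h4
    have h6 : (q - l v).1.1 x = q.1.1 x - (l v).1.1 x := rfl
    have h7 : q.1.1 x = 0 := by rw [h2]; rfl
    rw [h6, h7, zero_sub, abs_neg] at h5
    exact h5
  have hb : ∀ t : T, |u t - l₀.1.2 t| ≤ 1 / 4 := by
    intro t
    have h0 : Tendsto (fun v : T → ℝ => v t) V (𝓝 (u t)) :=
      ((continuous_apply t).tendsto u).mono_left hV2
    have h1 : Tendsto (fun v => |v t - (l v).1.2 t|) V (𝓝 |u t - l₀.1.2 t|) :=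
      (h0.sub (hw (fine_cs r η t))).abs
    refine le_of_tendsto h1 ?_
    filter_upwards [hev] with v hv
    obtain ⟨_, q, _, h3, h4⟩ := hv
    have h5 := (fine_snd r η (q - l v) t).trans h4
    have h6 : (q - l v).1.2 t = q.1.2 t - (l v).1.2 t := rfl
    have h7 : q.1.2 t = v t := congrFun h3 t
    rw [h6, h7] at h5
    exact h5
  obtain ⟨c, D, hc1, hc2⟩ := hM Γ r η hP l₀.1 l₀.2 (1 / 8) (by norm_num)
  have hc3 : ∀ x, |c x| ≤ 3 / 8 := by
    intro x
    have h1 := abs_le.1 (hc1 x)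
    have h2 := abs_le.1 (ha x)
    rw [abs_le]
    constructor <;> linarith
  obtain ⟨N, hN⟩ := nd_split_fin r hP.1 c.support
  have hfin : ((D : Set T) ∪ ⋃ x ∈ c.support, (fun n => nd (r x) n) '' Set.Iio N).Finite := by
    refine D.finite_toSet.union ?_
    refine c.support.finite_toSet.biUnion ?_
    intro x _
    exact (Set.finite_Iio N).image _
  have hsupp : {t | u t ≠ 0} ⊆
      (D : Set T) ∪ ⋃ x ∈ c.support, (fun n => nd (r x) n) '' Set.Iio N := by
    intro t ht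
    by_contra hcon
    rw [mem_union, not_or] at hcon
    obtain ⟨htD, htB⟩ := hcon
    have hut : u t = 1 := (hu01 t).resolve_left ht
    have h1 := abs_le.1 (hb t)
    rw [hut] at h1
    have h2 := abs_le.1 (hc2 t htD)
    have h3 : (5 : ℝ) / 8 ≤ ∑ x ∈ c.support, c x * η x * ind (r x) 0 t := by linarith
    have h4 : ∑ x ∈ c.support, c x * η x * ind (r x) 0 t ≤ 3 / 8 := by
      by_cases hex : ∃ x ∈ c.support, ind (r x) 0 t ≠ 0
      · obtain ⟨x, hx, hx1⟩ := hex
        obtain ⟨hx2, hx3⟩ := (ind_cases (r x) t).resolve_left hx1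
        have hlen : N ≤ t.length := by
          by_contra hlt
          apply htB
          refine mem_biUnion hx ?_
          exact ⟨t.length, mem_Iio.2 (by omega), hx3.symm⟩
        rw [Finset.sum_eq_single_of_mem x hx]
        · rw [hx2, mul_one]
          have h5 := (abs_le.1 (hc3 x)).2
          have h6 := (hP.2 x).1
          have h7 := (hP.2 x).2
          by_cases h8 : 0 ≤ c x
          · calc c x * η x ≤ c x * 1 := mul_le_mul_of_nonneg_left h7 h8
              _ ≤ 3 / 8 := by linarith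
          · have h9 : c x * η x ≤ 0 := mul_nonpos_of_nonpos_of_nonneg (by linarith) h6.le
            linarith
        · intro y hy hyx
          have h5 : ind (r y) 0 t = 0 := by
            rcases ind_cases (r y) t with h6 | ⟨_, h6⟩
            · exact h6
            · exfalso
              exact hN y hy x hx hyx t.length hlen (h6.symm.trans hx3)
          rw [h5, mul_zero]
      · push Not at hex
        rw [Finset.sum_eq_zero]
        · norm_num
        · intro x hx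
          rw [hex x hx, mul_zero]
    linarith
  have hfin2 : {t | u t ≠ 0}.Finite := hfin.subset hsupp
  unfold Null
  refine Tendsto.congr' ?_ tendsto_const_nhds
  rw [Filter.EventuallyEq, Filter.eventually_cofinite]
  refine hfin2.subset ?_
  intro t ht
  exact fun h => ht h.symm

end Pool.Agent.Helper1.JL
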